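import Pool.Agent.Lib.MP_28303a_al.TW.Graph3
import Pool.Agent.Lib.MP_28303a_al.TW.H12.Polyk
import Pool.Agent.Lib.MP_28303a_al.NK.H91.Stab
import Pool.Agent.Lib.MP_28303a_al.WR.Mc

/-! # FUN: `K₀(A) → K₀(A[t, t⁻¹])` onto implies `K₀(A) → K₀(A[t])` onto -/

set_option autoImplicit false
set_option linter.unusedSectionVars false

namespace Pool.Agent.NegK.TW.H17

open Pool.Agent.NegK.WR.H12p Pool.Agent.NegK.WR.H12p.LP
open Pool.Agent.NegK.H50 (Rep exists_rep rep_range K0_eq_top)
open Pool.Agent.NegK.TW.H12 (rep_ind)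

universe u

section

variable {R : Type u} [Ring R]

/-- Division by `t ^ k`. -/
noncomputable def down (R : Type u) [Ring R] (k : ℕ) : LP R →ₗ[R] LP R where
  toFun x := AddMonoidAlgebra.divOf x k
  map_add' x y := AddMonoidAlgebra.add_divOf x y k
  map_smul' _ _ := LP.ext fun _ => rfl

theorem down_T (k : ℕ) (x : LP R) : down R k (T k * x) = x :=
  AddMonoidAlgebra.of'_mul_divOf k x

section

variable {M : Type u} [AddCommGroup M] [Module R M] [Module (LP R) M] [IsScalarTower R (LP R) M]

/-- Multiplication by `t ^ k` is split injective over `R` on a finitely generated projective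
module. -/
theorem exists_down (h1 : Module.Finite (LP R) M) (h2 : Module.Projective (LP R) M) (k : ℕ) :
    ∃ ρ : M →ₗ[R] M, ∀ x, ρ ((T k : LP R) • x) = x := by
  obtain ⟨p, α, β, h3, -⟩ := exists_rep h1 h2
  refine ⟨(β.restrictScalars R) ∘ₗ
    ((LinearMap.pi fun i => (down R k) ∘ₗ (LinearMap.proj i)) ∘ₗ (α.restrictScalars R)),
    fun x => ?_⟩
  have h4 : (LinearMap.pi fun i => (down R k) ∘ₗ (LinearMap.proj i))
      (α ((T k : LP R) • x)) = α x := by
    rw [map_smul]
    funext i
    exact down_T k (α x i)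
  show β ((LinearMap.pi fun i => (down R k) ∘ₗ (LinearMap.proj i)) (α ((T k : LP R) • x))) = x
  rw [h4]
  exact LinearMap.congr_fun h3 x

theorem projective_res (h1 : Module.Finite (LP R) M) (h2 : Module.Projective (LP R) M) :
    Module.Projective R M := by
  obtain ⟨p, α, β, h3, -⟩ := exists_rep h1 h2
  exact Module.Projective.of_split (α.restrictScalars R) (β.restrictScalars R)
    (LinearMap.ext fun x => LinearMap.congr_fun h3 x)

/-- A finitely generated module killed by `t ^ k` is finitely generated over `R`. -/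
theorem finite_of_killed (h1 : Module.Finite (LP R) M) (k : ℕ)
    (h : ∀ x : M, (T k : LP R) • x = 0) : Module.Finite R M := by
  obtain ⟨m, e, he⟩ := Module.Finite.exists_fin (R := LP R) (M := M)
  let G : Set M := (fun p : ℕ × Fin m => (T p.1 : LP R) • e p.2) ''
    (Set.Iio k ×ˢ Set.univ)
  have hG : G.Finite := ((Set.finite_Iio _).prod Set.finite_univ).image _
  have h2 : ∀ (a : LP R) (j : Fin m), a • e j ∈ Submodule.span R G := by
    intro a j
    induction a using LP.induction_on' with
    | add p q hp hq => rw [add_smul]; exact add_mem hp hq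
    | C_mul_T i r =>
      rw [mul_smul, C_smul']
      refine Submodule.smul_mem _ _ ?_
      by_cases hi : i < k
      · exact Submodule.subset_span ⟨(i, j), ⟨hi, Set.mem_univ _⟩, rfl⟩
      · obtain ⟨l, rfl⟩ := Nat.exists_eq_add_of_le (not_lt.1 hi)
        rw [T_add, mul_smul, h]
        exact zero_mem _
  refine ⟨?_⟩
  have h3 : Submodule.span R G = ⊤ := by
    rw [eq_top_iff]
    intro x _
    have hx : x ∈ Submodule.span (LP R) (Set.range e) := by rw [he]; trivial
    obtain ⟨c, rfl⟩ := (Submodule.mem_span_range_iff_exists_fun (LP R)).1 hx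
    exact Submodule.sum_mem _ fun j _ => h2 _ _
  rw [← h3]
  exact Submodule.fg_span hG

/-- The characteristic sequence. -/
theorem range_dl_top : LinearMap.range (WR.H12p.dl (⊤ : Submodule R M)) =
    LinearMap.ker (WR.H12p.pr (⊤ : Submodule R M)) := by
  have base : ∀ x : M, ((sg 0 ⟨x, trivial⟩ : Ind (⊤ : Submodule R M)), x) ∈
      WR.H12p.rel (⊤ : Submodule R M) := by
    intro x
    refine ⟨trivial, ?_⟩
    show sg 0 (⟨x, trivial⟩ : (⊤ : Submodule R M)) - sg 0 (⟨x, trivial⟩ : (⊤ : Submodule R M)) ∈ _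
    rw [sub_self]
    exact zero_mem _
  have tele : ∀ (n : ℕ) (x : M), ((T n : LP R) •
      (sg 0 ⟨x, trivial⟩ : Ind (⊤ : Submodule R M)), (T n : LP R) • x) ∈
      WR.H12p.rel (⊤ : Submodule R M) := by
    intro n
    induction n with
    | zero =>
      intro x
      rw [T_zero, one_smul, one_smul]
      exact base x
    | succ n ih =>
      intro x
      have h1 : (T (n + 1) : LP R) = T 1 * T n := by
        rw [← T_add, add_comm]
      rw [h1, mul_smul, mul_smul]
      exact rel_up (ih x) trivial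
  have main : ∀ y : Ind (⊤ : Submodule R M), (y, WR.H12p.pr _ y) ∈ WR.H12p.rel (⊤ : Submodule R M) := by
    intro y
    induction y using Ind.induction with
    | h0 => rw [map_zero]; exact zero_mem _
    | hadd x y hx hy =>
      rw [map_add, ← Prod.mk_add_mk]
      exact Submodule.add_mem _ hx hy
    | hsg i n =>
      rw [pr_sg, sg_eq_smul (R := R)]
      exact tele i n
  refine le_antisymm ?_ ?_
  · rintro _ ⟨x, rfl⟩
    exact pr_dl _ x
  · intro y hy
    have h1 := main y
    rw [LinearMap.mem_ker] at hy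
    rw [hy] at h1
    exact rel_zero h1

theorem one_top : WR.H12p.one (⊤ : Submodule R M) = ⊤ := by
  unfold one
  rw [Submodule.comap_top, inf_top_eq]

end

/-- Mutually inverse maps up to `t ^ k` give the same class. -/
theorem cls_eq_of_maps {P F : Type u} [AddCommGroup P] [Module (LP R) P] [AddCommGroup F]
    [Module (LP R) F] {p f : Idem (LP R)} (hp : Rep P p) (hf : Rep F f)
    (α : P →ₗ[LP R] F) (β : F →ₗ[LP R] P) (k : ℕ)
    (h1 : ∀ x, β (α x) = (T k : LP R) • x) (h2 : ∀ y, α (β y) = (T k : LP R) • y) :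
    K0.cls p = K0.cls f := by
  let _ : Module R P := Module.compHom P (C : R →+* LP R)
  have : IsScalarTower R (LP R) P := ⟨fun r a x => by
    rw [LP.smul_eq_C_mul, mul_smul]
    rfl⟩
  let _ : Module R F := Module.compHom F (C : R →+* LP R)
  have : IsScalarTower R (LP R) F := ⟨fun r a x => by
    rw [LP.smul_eq_C_mul, mul_smul]
    rfl⟩
  obtain ⟨ρ, hρ⟩ := exists_down (R := R) hp.finite hp.projective k
  have hinj : Function.Injective α := by
    intro x y hxy
    rw [← hρ x, ← hρ y, ← h1, ← h1, hxy]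
  let N : Submodule (LP R) F := LinearMap.range α
  -- the quotient is projective over `R`
  let φ : F →ₗ[R] F := LinearMap.id - (α.restrictScalars R) ∘ₗ (ρ ∘ₗ (β.restrictScalars R))
  have hφ : ∀ y, φ y = y - α (ρ (β y)) := fun y => rfl
  have hφ0 : N.restrictScalars R ≤ LinearMap.ker φ := by
    rintro _ ⟨x, rfl⟩
    rw [LinearMap.mem_ker, hφ, h1, hρ, sub_self]
  let s : (F ⧸ N) →ₗ[R] F := (Submodule.liftQ (N.restrictScalars R) φ hφ0) ∘ₗ
    (Submodule.Quotient.restrictScalarsEquiv R N).symm.toLinearMap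
  let π : F →ₗ[R] (F ⧸ N) := N.mkQ.restrictScalars R
  have hs : π ∘ₗ s = LinearMap.id := by
    refine LinearMap.ext fun q => ?_
    obtain ⟨y, rfl⟩ := Submodule.Quotient.mk_surjective N q
    show N.mkQ (φ y) = N.mkQ y
    rw [hφ, map_sub]
    have h3 : N.mkQ (α (ρ (β y))) = 0 := (Submodule.Quotient.mk_eq_zero N).2 ⟨_, rfl⟩
    rw [h3, sub_zero]
  have hFR : Module.Projective R F := projective_res hf.finite hf.projective
  have hQ1 : Module.Projective R (F ⧸ N) := Module.Projective.of_split s π hs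
  have hfF : Module.Finite (LP R) F := hf.finite
  have hQ2 : Module.Finite R (F ⧸ N) := by
    refine finite_of_killed inferInstance k fun q => ?_
    obtain ⟨y, rfl⟩ := Submodule.Quotient.mk_surjective N q
    rw [← Submodule.Quotient.mk_smul, ← h2, Submodule.Quotient.mk_eq_zero]
    exact ⟨_, rfl⟩
  -- the classes
  obtain ⟨x, hx⟩ := exists_rep hQ2 hQ1
  have hx1 : Rep (⊤ : Submodule R (F ⧸ N)) x := hx.congr Submodule.topEquiv.symm
  have hx2 : Rep (WR.H12p.one (⊤ : Submodule R (F ⧸ N))) x :=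
    hx1.congr (LinearEquiv.ofEq _ _ one_top.symm)
  have hy1 := rep_ind hx1
  have hy2 := rep_ind hx2
  have hsurj : Function.Surjective (WR.H12p.pr (⊤ : Submodule R (F ⧸ N))) := fun q =>
    ⟨sg 0 ⟨q, trivial⟩, pr_sg_zero _ _⟩
  obtain ⟨e⟩ := schanuel hf.projective hy1.projective N.mkQ (WR.H12p.pr (⊤ : Submodule R (F ⧸ N)))
    (Submodule.mkQ_surjective N) hsurj
  have e1 : Ind (WR.H12p.one (⊤ : Submodule R (F ⧸ N))) ≃ₗ[LP R]
      LinearMap.ker (WR.H12p.pr (⊤ : Submodule R (F ⧸ N))) :=
    (LinearEquiv.ofInjective _ (dl_injective _)).trans (LinearEquiv.ofEq _ _ range_dl_top)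
  have e2 : P ≃ₗ[LP R] LinearMap.ker N.mkQ :=
    (LinearEquiv.ofInjective α hinj).trans (LinearEquiv.ofEq _ _ N.ker_mkQ.symm)
  have h4 := ((hy2.congr e1).prod hf).cls_eq ((hp.congr e2).prod hy1) e
  rw [NegK.cls_sum, NegK.cls_sum, add_comm] at h4
  exact (add_right_cancel h4).symm

/-- The matrix version. -/
theorem cls_eq_of_mats {p f : Idem (LP R)} (a : Matrix (Fin p.n) (Fin f.n) (LP R))
    (b : Matrix (Fin f.n) (Fin p.n) (LP R)) (k : ℕ)
    (h1 : a * b = (T k : LP R) • p.e) (h2 : b * a = (T k : LP R) • f.e)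
    (h3 : a * f.e = a) (h4 : b * p.e = b) : K0.cls p = K0.cls f := by
  have hsm : ∀ (m n : ℕ) (v : Fin m → LP R) (g : Matrix (Fin m) (Fin n) (LP R)),
      Matrix.vecMul v ((T k : LP R) • g) = (T k : LP R) • Matrix.vecMul v g := by
    intro m n v g
    funext j
    show ∑ i, v i * (T k * g i j) = T k * ∑ i, v i * g i j
    rw [Finset.mul_sum]
    refine Finset.sum_congr rfl fun i _ => ?_
    rw [← mul_assoc, ← T_mul, mul_assoc]
  have hmem : ∀ (q : Idem (LP R)) (v : Fin q.n → LP R),
      v ∈ LinearMap.range (Matrix.toLinearMapRight' q.e) ↔ Matrix.vecMul v q.e = v := by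
    intro q v
    constructor
    · rintro ⟨w, rfl⟩
      rw [Matrix.toLinearMapRight'_apply, Matrix.vecMul_vecMul, q.idem]
    · intro h
      exact ⟨v, by rw [Matrix.toLinearMapRight'_apply, h]⟩
  have ha : ∀ v ∈ LinearMap.range (Matrix.toLinearMapRight' p.e),
      Matrix.toLinearMapRight' a v ∈ LinearMap.range (Matrix.toLinearMapRight' f.e) := by
    intro v _
    rw [hmem, Matrix.toLinearMapRight'_apply, Matrix.vecMul_vecMul, h3]
  have hb : ∀ v ∈ LinearMap.range (Matrix.toLinearMapRight' f.e),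
      Matrix.toLinearMapRight' b v ∈ LinearMap.range (Matrix.toLinearMapRight' p.e) := by
    intro v _
    rw [hmem, Matrix.toLinearMapRight'_apply, Matrix.vecMul_vecMul, h4]
  refine cls_eq_of_maps (rep_range p) (rep_range f)
    ((Matrix.toLinearMapRight' a).restrict ha) ((Matrix.toLinearMapRight' b).restrict hb) k ?_ ?_
  · rintro ⟨v, hv⟩
    refine Subtype.ext ?_
    show Matrix.vecMul (Matrix.vecMul v a) b = (T k : LP R) • v
    rw [Matrix.vecMul_vecMul, h1, hsm, (hmem p v).1 hv]
  · rintro ⟨v, hv⟩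
    refine Subtype.ext ?_
    show Matrix.vecMul (Matrix.vecMul v b) a = (T k : LP R) • v
    rw [Matrix.vecMul_vecMul, h2, hsm, (hmem f v).1 hv]

/-- The polynomials. -/
noncomputable def eP (R : Type u) [Ring R] : LP R ≃+* Polynomial R :=
  (Polynomial.toFinsuppIso R).symm

/-- The inclusion of polynomials in Laurent polynomials. -/
noncomputable def io (R : Type u) [Ring R] : LP R →+* LaurentPolynomial R :=
  (Polynomial.toLaurent : Polynomial R →+* LaurentPolynomial R).comp
    (eP R : LP R →+* Polynomial R)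

theorem io_injective : Function.Injective (io R) :=
  Polynomial.toLaurent_injective.comp (eP R).injective

theorem io_C : (io R).comp (C : R →+* LP R) = (LaurentPolynomial.C : R →+* _) := by
  refine RingHom.ext fun r => ?_
  exact Polynomial.toLaurent_C r

theorem io_T (k : ℕ) : io R (T k) = LaurentPolynomial.T (k : ℤ) := by
  rw [← Polynomial.toLaurent_X_pow]
  have h1 : (Polynomial.toFinsuppIso R).symm (T k) = Polynomial.X ^ k := by
    rw [RingEquiv.symm_apply_eq, Polynomial.toFinsuppIso_apply, Polynomial.toFinsupp_X_pow]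
    rfl
  exact congrArg Polynomial.toLaurent h1

theorem exists_clear (x : LaurentPolynomial R) : ∃ N : ℕ, ∀ n, N ≤ n →
    ∃ y : LP R, io R y = LaurentPolynomial.T (n : ℤ) * x := by
  obtain ⟨N, y, hy⟩ := LaurentPolynomial.exists_T_pow x
  refine ⟨N, fun n hn => ?_⟩
  obtain ⟨l, rfl⟩ := Nat.exists_eq_add_of_le hn
  refine ⟨T l * (eP R).symm y, ?_⟩
  have h1 : io R ((eP R).symm y) = Polynomial.toLaurent y := by
    show Polynomial.toLaurent (eP R ((eP R).symm y)) = _
    rw [RingEquiv.apply_symm_apply]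
  rw [map_mul, h1, hy, io_T]
  have h2 : x * LaurentPolynomial.T (N : ℤ) = LaurentPolynomial.T (N : ℤ) * x :=
    (LaurentPolynomial.T_mul (N : ℤ) x).symm
  rw [h2, ← mul_assoc, ← LaurentPolynomial.T_add, Nat.cast_add, add_comm (l : ℤ)]

theorem exists_clear_mat {m n : ℕ} (a : Matrix (Fin m) (Fin n) (LaurentPolynomial R)) :
    ∃ N : ℕ, ∀ k, N ≤ k → ∃ y : Matrix (Fin m) (Fin n) (LP R), y.map (io R) =
      (LaurentPolynomial.T (k : ℤ) : LaurentPolynomial R) • a := by
  choose N hN using fun (i : Fin m) (j : Fin n) => exists_clear (a i j)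
  refine ⟨∑ i, ∑ j, N i j, fun k hk => ?_⟩
  have h1 : ∀ i j, N i j ≤ k := fun i j => le_trans
    (le_trans (Finset.single_le_sum (f := fun j => N i j) (fun _ _ => Nat.zero_le _)
      (Finset.mem_univ j))
      (Finset.single_le_sum (f := fun i => ∑ j, N i j) (fun _ _ => Nat.zero_le _)
        (Finset.mem_univ i))) hk
  choose y hy using fun (i : Fin m) (j : Fin n) => hN i j k (h1 i j)
  exact ⟨Matrix.of y, Matrix.ext fun i j => hy i j⟩

theorem map_io_injective {m n : ℕ} {a b : Matrix (Fin m) (Fin n) (LP R)}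
    (h : a.map (io R) = b.map (io R)) : a = b :=
  Matrix.map_injective io_injective h

theorem T_smul_mul {l m n : ℕ} (k : ℤ) (a : Matrix (Fin l) (Fin m) (LaurentPolynomial R))
    (b : Matrix (Fin m) (Fin n) (LaurentPolynomial R)) :
    a * ((LaurentPolynomial.T k : LaurentPolynomial R) • b) =
      (LaurentPolynomial.T k : LaurentPolynomial R) • (a * b) := by
  ext1 i j
  show ∑ s, a i s * (LaurentPolynomial.T k * b s j) = LaurentPolynomial.T k * ∑ s, a i s * b s j
  rw [Finset.mul_sum]
  refine Finset.sum_congr rfl fun i _ => ?_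
  rw [← mul_assoc, ← LaurentPolynomial.T_mul, mul_assoc]

theorem T_smul_mul' {l m n : ℕ} (k : ℤ) (a : Matrix (Fin l) (Fin m) (LaurentPolynomial R))
    (b : Matrix (Fin m) (Fin n) (LaurentPolynomial R)) :
    ((LaurentPolynomial.T k : LaurentPolynomial R) • a) * b =
      (LaurentPolynomial.T k : LaurentPolynomial R) • (a * b) := by
  ext1 i j
  show ∑ s, (LaurentPolynomial.T k * a i s) * b s j = LaurentPolynomial.T k * ∑ s, a i s * b s j
  rw [Finset.mul_sum]
  refine Finset.sum_congr rfl fun i _ => ?_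
  rw [mul_assoc]

theorem map_io_T (k : ℕ) {m n : ℕ} (c : Matrix (Fin m) (Fin n) (LP R)) :
    ((T (k + k) : LP R) • c).map (io R) = (LaurentPolynomial.T (k : ℤ) : LaurentPolynomial R) •
      ((LaurentPolynomial.T (k : ℤ) : LaurentPolynomial R) • c.map (io R)) := by
  ext1 i j
  rw [Matrix.map_apply, Matrix.smul_apply, Matrix.smul_apply, Matrix.smul_apply,
    Matrix.map_apply, smul_eq_mul, smul_eq_mul, smul_eq_mul, map_mul, io_T, Nat.cast_add,
    LaurentPolynomial.T_add, mul_assoc]

theorem prod_clear (k : ℕ) {m n : ℕ} {a : Matrix (Fin m) (Fin n) (LaurentPolynomial R)}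
    {b : Matrix (Fin n) (Fin m) (LaurentPolynomial R)} {c : Matrix (Fin m) (Fin m) (LP R)}
    (h : a * b = c.map (io R)) {A : Matrix (Fin m) (Fin n) (LP R)}
    {B : Matrix (Fin n) (Fin m) (LP R)}
    (hA : A.map (io R) = (LaurentPolynomial.T (k : ℤ) : LaurentPolynomial R) • a)
    (hB : B.map (io R) = (LaurentPolynomial.T (k : ℤ) : LaurentPolynomial R) • b) :
    A * B = (T (k + k) : LP R) • c := by
  refine map_io_injective ?_
  have h1 : (A * B).map (io R) = A.map (io R) * B.map (io R) := Matrix.map_mul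
  rw [h1, hA, hB, map_io_T, T_smul_mul', T_smul_mul, h]

theorem prod_clear' (k : ℕ) {m n : ℕ} {a : Matrix (Fin m) (Fin n) (LaurentPolynomial R)}
    {c : Matrix (Fin n) (Fin n) (LP R)}
    (h : a * c.map (io R) = a) {A : Matrix (Fin m) (Fin n) (LP R)}
    (hA : A.map (io R) = (LaurentPolynomial.T (k : ℤ) : LaurentPolynomial R) • a) :
    A * c = A := by
  refine map_io_injective ?_
  have h1 : (A * c).map (io R) = A.map (io R) * c.map (io R) := Matrix.map_mul
  rw [h1, hA, T_smul_mul', h]

theorem cls_eq_of_norm {p f : Idem (LP R)} (a : Matrix (Fin p.n) (Fin f.n) (LaurentPolynomial R))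
    (b : Matrix (Fin f.n) (Fin p.n) (LaurentPolynomial R)) (h1 : a * b = p.e.map (io R))
    (h2 : b * a = f.e.map (io R)) (h3 : a * f.e.map (io R) = a) (h4 : b * p.e.map (io R) = b) :
    K0.cls p = K0.cls f := by
  obtain ⟨N1, hN1⟩ := exists_clear_mat a
  obtain ⟨N2, hN2⟩ := exists_clear_mat b
  obtain ⟨A, hA⟩ := hN1 (max N1 N2) (le_max_left _ _)
  obtain ⟨B, hB⟩ := hN2 (max N1 N2) (le_max_right _ _)
  exact cls_eq_of_mats A B (max N1 N2 + max N1 N2) (prod_clear _ h1 hA hB)
    (prod_clear _ h2 hB hA) (prod_clear' _ h3 hA) (prod_clear' _ h4 hB)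

/-- Idempotents which become equivalent over the Laurent polynomials have the same class. -/
theorem cls_eq_of_laurent {p f : Idem (LP R)} (h : (p.map (io R)).Equiv (f.map (io R))) :
    K0.cls p = K0.cls f := by
  obtain ⟨a, b, hab, hba⟩ : ∃ (a : Matrix (Fin p.n) (Fin f.n) (LaurentPolynomial R))
    (b : Matrix (Fin f.n) (Fin p.n) (LaurentPolynomial R)), a * b = p.e.map (io R) ∧
      b * a = f.e.map (io R) := h
  have hP : p.e.map (io R) * p.e.map (io R) = p.e.map (io R) := (p.map (io R)).idem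
  have hF : f.e.map (io R) * f.e.map (io R) = f.e.map (io R) := (f.map (io R)).idem
  generalize hPd : p.e.map (io R) = P at *
  generalize hFd : f.e.map (io R) = F at *
  have haF : P * a = a * F := by
    rw [← hab, ← hba, Matrix.mul_assoc]
  have hbF : b * P = F * b := by
    rw [← hab, ← hba, Matrix.mul_assoc]
  refine cls_eq_of_norm (P * a) (b * P) ?_ ?_ ?_ ?_
  · rw [hPd, Matrix.mul_assoc, ← Matrix.mul_assoc a, hab, hP, hP]
  · rw [hFd, haF, hbF, Matrix.mul_assoc, ← Matrix.mul_assoc b, hba, hF, hF]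
  · rw [hFd, haF, Matrix.mul_assoc, hF]
  · rw [hPd, Matrix.mul_assoc, hP]

theorem surj_LP (h : Function.Surjective
    (K0.map (LaurentPolynomial.C : R →+* LaurentPolynomial R))) :
    Function.Surjective (K0.map (C : R →+* LP R)) := by
  intro z
  have h0 : z ∈ (K0.map (C : R →+* LP R)).range := by
    refine K0_eq_top (fun p => ?_) z
    obtain ⟨w, hw⟩ := h (K0.cls (p.map (io R)))
    obtain ⟨e1, e2, rfl⟩ := exists_sub w
    have hC : ∀ e : Idem R, K0.map (LaurentPolynomial.C : R →+* LaurentPolynomial R) (K0.cls e) =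
        K0.cls ((e.map (C : R →+* LP R)).map (io R)) := by
      intro e
      rw [← K0.map_cls, ← K0.map_cls, K0.map_map, io_C]
    have h1 : K0.cls ((p.sum (e2.map (C : R →+* LP R))).map (io R)) =
        K0.cls ((e1.map (C : R →+* LP R)).map (io R)) := by
      rw [Idem.map_sum, NegK.cls_sum, ← hw, map_sub, hC, hC, sub_add_cancel]
    obtain ⟨r, hr⟩ := H91.stab h1
    have hone : H91.one (LaurentPolynomial R) r = (H91.one (LP R) r).map (io R) := by
      unfold H91.one Idem.map
      congr 1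
      rw [Matrix.map_one _ (map_zero _) (map_one _)]
    rw [hone, ← Idem.map_sum, ← Idem.map_sum] at hr
    have h2 := cls_eq_of_laurent hr
    rw [NegK.cls_sum, NegK.cls_sum, NegK.cls_sum] at h2
    have h3 := add_right_cancel h2
    refine ⟨K0.cls e1 - K0.cls e2, ?_⟩
    rw [map_sub, K0.map_cls, K0.map_cls, ← h3, add_sub_cancel_right]
  exact h0

end

/-- FUN. -/
theorem fun_main : FunStatement.{u} := by
  intro R _ hR z
  let e : LP R ≃+* Polynomial R := eP R
  have hC : ((e : LP R →+* Polynomial R)).comp (C : R →+* LP R) =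
      (Polynomial.C : R →+* Polynomial R) := by
    refine RingHom.ext fun r => ?_
    rfl
  obtain ⟨y, hy⟩ := surj_LP hR (K0.map (e.symm : Polynomial R →+* LP R) z)
  refine ⟨y, ?_⟩
  have h1 : (e : LP R →+* Polynomial R).comp (e.symm : Polynomial R →+* LP R) =
      RingHom.id _ := by
    refine RingHom.ext fun r => ?_
    exact e.apply_symm_apply r
  rw [← hC, ← K0.map_map, hy, K0.map_map, h1, K0.map_id]

end Pool.Agent.NegK.TW.H17
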